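import Mathlib
import Pool.Agent.KXP.Fin

/-!
# Exponential lower bound for the number of faces of all centrally symmetric polytopes
-/

set_option autoImplicit false

namespace Pool.Agent.Results.MP_28dd0e_co.ExponentialBound

theorem result :
    ∀ d : ℕ, ∀ S : Finset (EuclideanSpace ℝ (Fin d)),
      (interior (convexHull ℝ (S : Set (EuclideanSpace ℝ (Fin d))))).Nonempty →
      (∀ x ∈ convexHull ℝ (S : Set (EuclideanSpace ℝ (Fin d))),
        -x ∈ convexHull ℝ (S : Set (EuclideanSpace ℝ (Fin d)))) →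
      {F : Set (EuclideanSpace ℝ (Fin d)) |
          F.Nonempty ∧ IsExposed ℝ (convexHull ℝ (S : Set (EuclideanSpace ℝ (Fin d)))) F}.Finite ∧
      (21 / 10 : ℝ) ^ d ≤
        ({F : Set (EuclideanSpace ℝ (Fin d)) |
          F.Nonempty ∧ IsExposed ℝ (convexHull ℝ (S : Set (EuclideanSpace ℝ (Fin d)))) F}.ncard : ℝ) := by
  intro d S hint hsym
  have h := Pool.Agent.KXP.final d S hint hsym
  have h2 : (2.1 : ℝ) = 21 / 10 := by norm_num
  rw [h2] at h
  exact h

end Pool.Agent.Results.MP_28dd0e_co.ExponentialBound
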