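import Mathlib
import Pool.Agent.S78.Fin8

/-!
# Kalai's inequality for centrally symmetric polytopes with simple vertex figures
-/

set_option autoImplicit false

namespace Pool.Agent.Results.MP_28dd0e_co.SimpleFiguresExact

/-- Let `K = {x | ∀ i, |⟨a i, x⟩| ≤ 1}` and let every point of `K` whose tight `a i` are dependent
be an extreme point of `K`. Let `P = K` be bounded or `P` the hull of `± a i` with interior
points. -/
theorem result :
    ∀ (d n : ℕ) (a : Fin n → Fin d → ℝ) (K P : Set (Fin d → ℝ)), 1 ≤ d →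
      K = {x | ∀ i, |a i ⬝ᵥ x| ≤ 1} →
      (∀ x ∈ K, ¬ LinearIndependent ℝ (fun i : {i : Fin n // |a i ⬝ᵥ x| = 1} => a i.1) →
        x ∈ Set.extremePoints ℝ K) →
      ((∀ x ∈ K, {i : Fin n | |a i ⬝ᵥ x| = 1}.ncard ≤ d + 1) ∨
        d ≤ 8 ∨
        {x : Fin d → ℝ | x ∈ K ∧
          ¬ LinearIndependent ℝ (fun i : {i : Fin n // |a i ⬝ᵥ x| = 1} => a i.1)}.ncard ≤
          (if Odd d then 3 * (d + 1) else 5 * d)) →
      ((P = K ∧ Bornology.IsBounded P) ∨
        (P = convexHull ℝ (Set.range a ∪ Set.range (fun i => -a i)) ∧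
          (interior P).Nonempty)) →
      (3 : ℕ∞) ^ d ≤ {F : Set (Fin d → ℝ) | IsExposed ℝ P F ∧ F.Nonempty}.encard := by
  intro d n a K P hd hK hns h hP
  subst hK
  refine Pool.Agent.S78.final_exact8 hd a (fun x hx => hns x hx) hP ?_
  rcases h with h | h | h
  · exact Or.inr (Or.inl h)
  · exact Or.inl h
  · refine Or.inr (Or.inr (h.trans ?_))
    unfold Pool.Agent.S78.bnd
    split_ifs with ho
    · obtain ⟨k, rfl⟩ := ho
      omega
    · rw [Nat.not_odd_iff_even] at ho
      obtain ⟨k, rfl⟩ := ho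
      omega

end Pool.Agent.Results.MP_28dd0e_co.SimpleFiguresExact
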