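import Mathlib
import Pool.Agent.CTC.F3

/-!
# Lower bound for the number of faces of centrally symmetric polytopes with simple vertex figures
-/

set_option autoImplicit false

namespace Pool.Agent.Results.MP_28dd0e_co.SimpleVertexFigures

/-- Let `K = {x | ∀ i, |⟨a i, x⟩| ≤ 1}` and let every point of `K` whose tight `a i` are dependent
be an extreme point of `K`. Let `P = K` be bounded or `P` the hull of `± a i` with interior
points. -/
theorem result :
    ∀ (d n : ℕ) (a : Fin n → Fin d → ℝ) (K P : Set (Fin d → ℝ)), 3 ≤ d →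
      K = {x | ∀ i, |a i ⬝ᵥ x| ≤ 1} →
      (∀ x ∈ K, ¬ LinearIndependent ℝ (fun i : {i : Fin n // |a i ⬝ᵥ x| = 1} => a i.1) →
        x ∈ Set.extremePoints ℝ K) →
      ((P = K ∧ Bornology.IsBounded P) ∨
        (P = convexHull ℝ (Set.range a ∪ Set.range (fun i => -a i)) ∧
          (interior P).Nonempty)) →
      {F : Set (Fin d → ℝ) | IsExposed ℝ P F ∧ F.Nonempty}.Finite ∧
      ∃ s : Finset (Fin n), K = {x | ∀ i ∈ s, |a i ⬝ᵥ x| ≤ 1} ∧
        (3 : ℤ) ^ d + 2 ^ ((d - 1) / 2) * (((Set.extremePoints ℝ K).ncard : ℤ) - 2 ^ d) +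
          (2 ^ (d - 1) + 2 - 2 ^ ((d - 1) / 2 + 1)) * (2 * (s.card : ℤ) - 2 * (d : ℤ)) ≤
        ({F : Set (Fin d → ℝ) | IsExposed ℝ P F ∧ F.Nonempty}.ncard : ℤ) := by
  intro d n a K P hd hK hns hP
  subst hK
  obtain ⟨h1, s, hs, h2⟩ := Pool.Agent.CTC.final_bplus hd a (fun x hx => hns x hx) hP
  refine ⟨h1, s, hs, le_trans (le_of_eq ?_) h2⟩
  rw [pow_succ (2 : ℤ) ((d - 1) / 2)]
  ring

end Pool.Agent.Results.MP_28dd0e_co.SimpleVertexFigures
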