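import Mathlib
import Pool.Agent.LVE.FinalD

/-!
# Faces of centrally symmetric polytopes weighted by chains of faces and by their excess
-/

set_option autoImplicit false

namespace Pool.Agent.Results.MP_28dd0e_co.VertexExcess

theorem result :
    ∀ (d n : ℕ) (a : Fin n → EuclideanSpace ℝ (Fin d)) (P : Set (EuclideanSpace ℝ (Fin d)))
      (κ : Set (EuclideanSpace ℝ (Fin d)) → Set (EuclideanSpace ℝ (Fin d)))
      (c : EuclideanSpace ℝ (Fin d)) (q e : Set (EuclideanSpace ℝ (Fin d)) → ℕ),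
      ((P = {x | ∀ i, |inner ℝ (a i) x| ≤ 1} ∧ Bornology.IsBounded P ∧ ∀ F, κ F = F) ∨
        (P = convexHull ℝ (Set.range a ∪ Set.range (fun i => -a i)) ∧ (interior P).Nonempty ∧
          ∀ F, κ F = {x | (∀ i, |inner ℝ (a i) x| ≤ 1) ∧ (F = P ∨ ∀ g ∈ F, inner ℝ g x = 1)})) →
      (∀ F : Set (EuclideanSpace ℝ (Fin d)), F.Nonempty → IsExposed ℝ P F →
        Module.finrank ℝ (Submodule.span ℝ (a '' {i | ∀ x ∈ κ F, |inner ℝ (a i) x| = 1})) + e F ≤
            {i | ∀ x ∈ κ F, |inner ℝ (a i) x| = 1}.ncard ∧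
          ∀ (r : ℕ) (x : ℕ → EuclideanSpace ℝ (Fin d)),
            (∀ j ≤ r, x j ∈ κ F ∧
              Module.finrank ℝ (Submodule.span ℝ (a '' {i | |inner ℝ (a i) (x j)| = 1})) + j = d) →
            (∀ y ∈ κ F, inner ℝ c y ≤ inner ℝ c (x 0)) →
            (∀ j < r,
              (∀ i, |inner ℝ (a i) (x (j + 1))| = 1 →
                inner ℝ (a i) (x j) = inner ℝ (a i) (x (j + 1))) ∧
              2 ≤ ({i | |inner ℝ (a i) (x j)| = 1} \ {i | |inner ℝ (a i) (x (j + 1))| = 1}).ncard) →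
            r ≤ q F) →
      (3 : ENNReal) ^ d ≤
        ∑' F : {F : Set (EuclideanSpace ℝ (Fin d)) // F.Nonempty ∧ IsExposed ℝ P F},
          (3 : ENNReal) ^ q F.1 / 3 ^ e F.1 := by
  intro d n a P κ c q e hP hqe
  rcases hP with ⟨h1, h2, h3⟩ | ⟨h1, h2, h3⟩
  · exact Pool.Agent.LVE.fd_facet a (Pool.Agent.GRD.inj_of_bounded a h1 h2) h1 c κ h3 q e hqe
  · exact Pool.Agent.LVE.fd_vertex a (Pool.Agent.GRD.inj_of_interior a h1 h2) h1
      (h2.mono interior_subset) c κ h3 q e hqe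

end Pool.Agent.Results.MP_28dd0e_co.VertexExcess
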